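import Pool.Agent.GZ72.Half

/-!
# GZ43/Sieve: the blocked levels are dense enough

The density of the blocked levels is at least `∏ (1 - 2 / l)` over the primes `3 ≤ l ≤ G`, and `G` times this product tends to
infinity, since all primes above `3` are `± 1` modulo `6`.
-/

set_option autoImplicit false

namespace Pool.Agent.GZ43

open Pool.Agent.GZ72

/-- no prime of `T` divides `p y ^ 2 - 4` -/
def Good (p : ℕ) (T : Finset ℕ) (y : ℕ) : Prop := ∀ l ∈ T, ¬ (l : ℤ) ∣ p * (y : ℤ) ^ 2 - 4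

theorem good_period {p : ℕ} {T : Finset ℕ} {W : ℕ} (hW : ∀ l ∈ T, l ∣ W) (y j : ℕ) (h : Good p T y) :
    Good p T (y + j * W) := by
  intro l hl hd
  apply h l hl
  have h1 : (l : ℤ) ∣ (W : ℤ) := Int.natCast_dvd_natCast.2 (hW l hl)
  obtain ⟨c, hc⟩ := h1
  obtain ⟨d, hd⟩ := hd
  refine ⟨d - p * (2 * y * j * c + j * c * (j * W)), ?_⟩
  push_cast at hd
  rw [hc] at hd ⊢
  linear_combination hd

/-- at most two of the numbers `y + j W`, `j < l`, are bad for the prime `l` -/
theorem bad_le {p l : ℕ} (hl : l.Prime) (hl3 : 3 ≤ l) {W : ℕ} (hW : ¬ l ∣ W) (y : ℕ) :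
    ((Finset.range l).filter (fun j => (l : ℤ) ∣ p * ((y + j * W : ℕ) : ℤ) ^ 2 - 4)).card ≤ 2 := by
  by_contra hcon
  push Not at hcon
  rw [Finset.two_lt_card] at hcon
  obtain ⟨a, ha, b, hb, c, hc, hab, hac, hbc⟩ := hcon
  rw [Finset.mem_filter, Finset.mem_range] at ha hb hc
  have hlp : Prime (l : ℤ) := Nat.prime_iff_prime_int.1 hl
  have hp : ¬ (l : ℤ) ∣ (p : ℤ) := by
    intro h
    have h1 : (l : ℤ) ∣ 4 := by
      have h2 := ha.2
      have h3 : (l : ℤ) ∣ p * ((y + a * W : ℕ) : ℤ) ^ 2 := Dvd.dvd.mul_right h _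
      have h4 := dvd_sub h3 h2
      rwa [sub_sub_cancel] at h4
    have h2 : l ∣ 4 := by exact_mod_cast h1
    have h3 : l ∣ 2 := by
      have h5 : (4 : ℕ) = 2 ^ 2 := by norm_num
      rw [h5] at h2
      exact hl.dvd_of_dvd_pow h2
    have := Nat.le_of_dvd (by norm_num) h3
    omega
  have key : ∀ i k : ℕ, i < l → k < l → i ≠ k →
      (l : ℤ) ∣ p * ((y + i * W : ℕ) : ℤ) ^ 2 - 4 → (l : ℤ) ∣ p * ((y + k * W : ℕ) : ℤ) ^ 2 - 4 →
      (l : ℤ) ∣ ((y + i * W : ℕ) : ℤ) + ((y + k * W : ℕ) : ℤ) := by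
    intro i k hi hk hik h1 h2
    have h3 : (l : ℤ) ∣ (p : ℤ) * ((((i : ℤ) - k) * W) *
        (((y + i * W : ℕ) : ℤ) + ((y + k * W : ℕ) : ℤ))) := by
      have h4 := dvd_sub h1 h2
      have e : (p : ℤ) * ((((i : ℤ) - k) * W) * (((y + i * W : ℕ) : ℤ) + ((y + k * W : ℕ) : ℤ))) =
        (p * ((y + i * W : ℕ) : ℤ) ^ 2 - 4) - (p * ((y + k * W : ℕ) : ℤ) ^ 2 - 4) := by
        push_cast
        ring
      rw [e]
      exact h4
    rcases hlp.dvd_or_dvd h3 with h5 | h5
    · exact absurd h5 hp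
    rcases hlp.dvd_or_dvd h5 with h6 | h6
    · exfalso
      rcases hlp.dvd_or_dvd h6 with h7 | h7
      · have h8 := Int.eq_zero_of_abs_lt_dvd h7 (by
          rw [abs_lt]
          constructor <;> omega)
        omega
      · exact hW (by exact_mod_cast h7)
    · exact h6
  have k1 := key a b ha.1 hb.1 hab ha.2 hb.2
  have k2 := key a c ha.1 hc.1 hac ha.2 hc.2
  have h3 := dvd_sub k1 k2
  have h4 : (l : ℤ) ∣ ((b : ℤ) - c) * W := by
    have e : ((b : ℤ) - c) * W = (((y + a * W : ℕ) : ℤ) + ((y + b * W : ℕ) : ℤ)) -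
        (((y + a * W : ℕ) : ℤ) + ((y + c * W : ℕ) : ℤ)) := by
      push_cast
      ring
    rw [e]
    exact h3
  rcases hlp.dvd_or_dvd h4 with h7 | h7
  · have h8 := Int.eq_zero_of_abs_lt_dvd h7 (by
      rw [abs_lt]
      constructor <;> omega)
    omega
  · exact hW (by exact_mod_cast h7)

open Classical in
/-- the number of good numbers of a full period -/
theorem period_count (p : ℕ) (T : Finset ℕ) (hT : ∀ l ∈ T, l.Prime ∧ 3 ≤ l) (A : ℕ) :
    ∏ l ∈ T, (l - 2) ≤ ((Finset.Ico A (A + ∏ l ∈ T, l)).filter (fun y => Good p T y)).card := by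
  induction T using Finset.induction_on with
  | empty => simp [Good]
  | insert l T hlT ih =>
    have hl := hT l (Finset.mem_insert_self _ _)
    have ih' := ih (fun l' h' => hT l' (Finset.mem_insert_of_mem h'))
    rw [Finset.prod_insert hlT, Finset.prod_insert hlT]
    set W := ∏ l' ∈ T, l' with hWdef
    have hWT : ∀ l' ∈ T, l' ∣ W := fun l' h' => Finset.dvd_prod_of_mem _ h'
    have hlW : ¬ l ∣ W := by
      intro h
      rw [hWdef] at h
      obtain ⟨l', h', h''⟩ := (hl.1.prime.dvd_finsetProd_iff _).1 h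
      have h2 := (Nat.prime_dvd_prime_iff_eq hl.1 (hT l' (Finset.mem_insert_of_mem h')).1).1 h''
      exact hlT (h2 ▸ h')
    have hW0 : 0 < W := by
      rw [hWdef]
      exact Finset.prod_pos fun l' h' => (hT l' (Finset.mem_insert_of_mem h')).1.pos
    set S0 := (Finset.Ico A (A + W)).filter (fun y => Good p T y) with hS0
    -- the pairs
    let F : Finset (Σ _ : ℕ, ℕ) := S0.sigma fun y =>
      (Finset.range l).filter (fun j => ¬ (l : ℤ) ∣ p * ((y + j * W : ℕ) : ℤ) ^ 2 - 4)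
    have hF : (l - 2) * S0.card ≤ F.card := by
      rw [Finset.card_sigma, mul_comm, ← smul_eq_mul]
      apply Finset.card_nsmul_le_sum
      intro y _
      have h1 := Finset.card_filter_add_card_filter_not (s := Finset.range l)
        (fun j => (l : ℤ) ∣ p * ((y + j * W : ℕ) : ℤ) ^ 2 - 4)
      rw [Finset.card_range] at h1
      have h2 := bad_le (p := p) hl.1 hl.2 hlW y
      omega
    have hinj : F.card ≤ ((Finset.Ico A (A + l * W)).filter (fun y => Good p (insert l T) y)).card := by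
      apply Finset.card_le_card_of_injOn (fun q => q.1 + q.2 * W)
      · rintro ⟨y, j⟩ hq
        simp only [F, Finset.coe_sigma, Set.mem_sigma_iff, Finset.mem_coe, Finset.mem_filter,
          Finset.mem_range, hS0, Finset.mem_Ico] at hq
        obtain ⟨⟨hy, hgood⟩, hj, hbad⟩ := hq
        simp only [Finset.coe_filter, Finset.mem_Ico, Set.mem_ofPred_eq]
        refine ⟨⟨by nlinarith [Nat.zero_le (j * W)], ?_⟩, ?_⟩
        · have h1 : (j + 1) * W ≤ l * W := Nat.mul_le_mul_right _ hj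
          have h2 : (j + 1) * W = j * W + W := by ring
          omega
        · intro l' h'
          rw [Finset.mem_insert] at h'
          rcases h' with h' | h'
          · rw [h']
            exact hbad
          · exact good_period hWT y j hgood l' h'
      · rintro ⟨y, j⟩ hq ⟨y', j'⟩ hq' he
        simp only [F, Finset.coe_sigma, Set.mem_sigma_iff, Finset.mem_coe, Finset.mem_filter,
          Finset.mem_range, hS0, Finset.mem_Ico] at hq hq'
        dsimp only at he
        have hy := hq.1.1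
        have hy' := hq'.1.1
        obtain ⟨s, hs⟩ := Nat.exists_eq_add_of_le hy.1
        obtain ⟨s', hs'⟩ := Nat.exists_eq_add_of_le hy'.1
        have e1 : s + j * W = s' + j' * W := by omega
        have hsW : s < W := by omega
        have hsW' : s' < W := by omega
        have e2 : s = s' := by
          have h1 : (s + j * W) % W = (s' + j' * W) % W := by rw [e1]
          rwa [Nat.add_mul_mod_self_right, Nat.add_mul_mod_self_right, Nat.mod_eq_of_lt hsW,
            Nat.mod_eq_of_lt hsW'] at h1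
        have e3 : j = j' := by
          rw [e2] at e1
          have h1 : j * W = j' * W := by omega
          exact Nat.eq_of_mul_eq_mul_right hW0 h1
        have e4 : y = y' := by omega
        rw [e3, e4]
    calc (l - 2) * ∏ l' ∈ T, (l' - 2) ≤ (l - 2) * S0.card := Nat.mul_le_mul_left _ ih'
      _ ≤ F.card := hF
      _ ≤ _ := hinj

open Classical in
theorem blocks (p : ℕ) (T : Finset ℕ) (hT : ∀ l ∈ T, l.Prime ∧ 3 ≤ l) (A m : ℕ) :
    m * ∏ l ∈ T, (l - 2) ≤
      ((Finset.Ico A (A + m * ∏ l ∈ T, l)).filter (fun y => Good p T y)).card := by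
  induction m with
  | zero => simp
  | succ m ih =>
    have h := period_count p T hT (A + m * ∏ l ∈ T, l)
    set W := ∏ l ∈ T, l
    have e : A + (m + 1) * W = A + m * W + W := by ring
    rw [e]
    have hu : Finset.Ico A (A + m * W + W) = Finset.Ico A (A + m * W) ∪
        Finset.Ico (A + m * W) (A + m * W + W) :=
      (Finset.Ico_union_Ico_eq_Ico (by omega) (by omega)).symm
    rw [hu, Finset.filter_union, Finset.card_union_of_disjoint]
    · rw [add_mul, one_mul]
      omega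
    · apply Finset.disjoint_filter_filter
      exact Finset.Ico_disjoint_Ico_consecutive _ _ _

/-- the factor of `n` -/
noncomputable def fac (n : ℕ) : ℝ := if n.Prime then 1 - 2 / (n : ℝ) else 1

/-- the density -/
noncomputable def dens (G : ℕ) : ℝ := ∏ l ∈ Finset.Ico 3 (G + 1), fac l

theorem fac_pos {n : ℕ} (hn : 3 ≤ n) : 0 < fac n := by
  unfold fac
  split_ifs
  · have h : (3 : ℝ) ≤ n := by exact_mod_cast hn
    have h2 : 2 / (n : ℝ) < 1 := by
      rw [div_lt_one (by linarith)]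
      linarith
    linarith
  · exact one_pos

theorem fac_ge {n : ℕ} : 1 - 2 / (n : ℝ) ≤ fac n := by
  unfold fac
  split_ifs
  · exact le_rfl
  · have : 0 ≤ 2 / (n : ℝ) := by positivity
    linarith

theorem fac_one {n : ℕ} (hn : ¬ n.Prime) : fac n = 1 := if_neg hn

theorem dens_pos (G : ℕ) : 0 < dens G :=
  Finset.prod_pos fun l hl => fac_pos (Finset.mem_Ico.1 hl).1

theorem dens_step (k : ℕ) (hk : 1 ≤ k) :
    dens (6 * k + 1) * (((6 * k + 3 : ℕ) : ℝ) / ((6 * k + 7 : ℕ) : ℝ)) ≤ dens (6 * k + 7) := by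
  have e : dens (6 * k + 7) = dens (6 * k + 1) * (fac (6 * k + 5) * fac (6 * k + 7)) := by
    unfold dens
    rw [Finset.prod_Ico_succ_top (by omega), Finset.prod_Ico_succ_top (by omega),
      Finset.prod_Ico_succ_top (by omega), Finset.prod_Ico_succ_top (by omega),
      Finset.prod_Ico_succ_top (by omega), Finset.prod_Ico_succ_top (by omega),
      fac_one (n := 6 * k + 6), fac_one (n := 6 * k + 4), fac_one (n := 6 * k + 3),
      fac_one (n := 6 * k + 2)]
    · ring
    · intro h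
      have := (Nat.Prime.dvd_iff_eq h (by norm_num : (2 : ℕ) ≠ 1)).1 ⟨3 * k + 1, by ring⟩
      omega
    · intro h
      have := (Nat.Prime.dvd_iff_eq h (by norm_num : (3 : ℕ) ≠ 1)).1 ⟨2 * k + 1, by ring⟩
      omega
    · intro h
      have := (Nat.Prime.dvd_iff_eq h (by norm_num : (2 : ℕ) ≠ 1)).1 ⟨3 * k + 2, by ring⟩
      omega
    · intro h
      have := (Nat.Prime.dvd_iff_eq h (by norm_num : (2 : ℕ) ≠ 1)).1 ⟨3 * k + 3, by ring⟩
      omega
  rw [e]
  apply mul_le_mul_of_nonneg_left _ (dens_pos _).le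
  have h5 : (0 : ℝ) < ((6 * k + 5 : ℕ) : ℝ) := by positivity
  have h7 : (0 : ℝ) < ((6 * k + 7 : ℕ) : ℝ) := by positivity
  calc ((6 * k + 3 : ℕ) : ℝ) / ((6 * k + 7 : ℕ) : ℝ)
      = (1 - 2 / ((6 * k + 5 : ℕ) : ℝ)) * (1 - 2 / ((6 * k + 7 : ℕ) : ℝ)) := by
        field_simp
        push_cast
        ring
    _ ≤ fac (6 * k + 5) * fac (6 * k + 7) := by
        apply mul_le_mul fac_ge fac_ge
        · have : 2 / ((6 * k + 7 : ℕ) : ℝ) ≤ 1 := by
            rw [div_le_one h7]
            have : (7 : ℝ) ≤ ((6 * k + 7 : ℕ) : ℝ) := by exact_mod_cast (by omega : 7 ≤ 6 * k + 7)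
            linarith
          linarith
        · exact (fac_pos (by omega)).le

theorem dens_low (k : ℕ) (hk : 1 ≤ k) :
    ((k : ℝ) + 1) / 27 ≤ (dens (6 * k + 1) * ((6 * k + 1 : ℕ) : ℝ)) ^ 3 := by
  induction k, hk using Nat.le_induction with
  | base =>
    have h : dens (6 * 1 + 1) = 1 / 7 := by
      unfold dens
      rw [Finset.prod_Ico_succ_top (by omega), Finset.prod_Ico_succ_top (by omega),
        Finset.prod_Ico_succ_top (by omega), Finset.prod_Ico_succ_top (by omega),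
        Finset.prod_Ico_succ_top (by omega), Finset.Ico_self, Finset.prod_empty]
      have h3 : Nat.Prime 3 := by norm_num
      have h4 : ¬ Nat.Prime 4 := by norm_num
      have h5 : Nat.Prime 5 := by norm_num
      have h6 : ¬ Nat.Prime 6 := by norm_num
      have h7 : Nat.Prime 7 := by norm_num
      simp only [fac, Nat.reduceAdd, Nat.reduceMul, if_pos h3, if_neg h4, if_pos h5, if_neg h6, if_pos h7]
      norm_num
    rw [h]
    norm_num
  | succ k hk ih =>
    have h1 := dens_step k hk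
    have e7 : 6 * (k + 1) + 1 = 6 * k + 7 := by ring
    rw [e7]
    set v := dens (6 * k + 1) * ((6 * k + 1 : ℕ) : ℝ) with hv
    have hkr : (1 : ℝ) ≤ k := by exact_mod_cast hk
    have hv0 : 0 ≤ v := mul_nonneg (dens_pos _).le (by positivity)
    have h7 : (0 : ℝ) < ((6 * k + 7 : ℕ) : ℝ) := by positivity
    have h11 : (0 : ℝ) < 6 * (k : ℝ) + 1 := by linarith
    have h2 : v * (1 + 2 / (6 * (k : ℝ) + 1)) ≤ dens (6 * k + 7) * ((6 * k + 7 : ℕ) : ℝ) := by
      calc v * (1 + 2 / (6 * (k : ℝ) + 1))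
          = dens (6 * k + 1) * (((6 * k + 3 : ℕ) : ℝ) / ((6 * k + 7 : ℕ) : ℝ)) * ((6 * k + 7 : ℕ) : ℝ) := by
            rw [hv]
            field_simp
            push_cast
            ring
        _ ≤ _ := mul_le_mul_of_nonneg_right h1 h7.le
    have h3 : 1 + 1 / ((k : ℝ) + 1) ≤ (1 + 2 / (6 * (k : ℝ) + 1)) ^ 3 := by
      have h4 : 0 ≤ 2 / (6 * (k : ℝ) + 1) := by positivity
      have h5 : 1 + 3 * (2 / (6 * (k : ℝ) + 1)) ≤ (1 + 2 / (6 * (k : ℝ) + 1)) ^ 3 := by
        nlinarith [pow_nonneg h4 3, pow_nonneg h4 2]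
      have h6 : 1 / ((k : ℝ) + 1) ≤ 3 * (2 / (6 * (k : ℝ) + 1)) := by
        rw [show 3 * (2 / (6 * (k : ℝ) + 1)) = 6 / (6 * (k : ℝ) + 1) by ring,
          div_le_div_iff₀ (by linarith) h11]
        linarith
      linarith
    calc (((k + 1 : ℕ) : ℝ) + 1) / 27 = ((k : ℝ) + 1) / 27 * (1 + 1 / ((k : ℝ) + 1)) := by
          have : (k : ℝ) + 1 ≠ 0 := by positivity
          field_simp
          push_cast
          ring
      _ ≤ v ^ 3 * (1 + 2 / (6 * (k : ℝ) + 1)) ^ 3 := by
          apply mul_le_mul ih h3 (by positivity) (by positivity)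
      _ = (v * (1 + 2 / (6 * (k : ℝ) + 1))) ^ 3 := by ring
      _ ≤ _ := by
          apply pow_le_pow_left₀ _ h2
          positivity

theorem exists_dens (K : ℝ) (hK : 0 ≤ K) : ∃ G : ℕ, K ≤ dens G * (G : ℝ) := by
  obtain ⟨k, hk⟩ := exists_nat_gt (27 * K ^ 3)
  refine ⟨6 * (k + 1) + 1, ?_⟩
  have h := dens_low (k + 1) (by omega)
  have h0 : 0 ≤ dens (6 * (k + 1) + 1) * ((6 * (k + 1) + 1 : ℕ) : ℝ) :=
    mul_nonneg (dens_pos _).le (by positivity)
  have h1 : K ^ 3 ≤ (dens (6 * (k + 1) + 1) * ((6 * (k + 1) + 1 : ℕ) : ℝ)) ^ 3 := by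
    refine le_trans ?_ h
    push_cast
    linarith
  exact le_of_pow_le_pow_left₀ (by norm_num) h0 h1

theorem dens_eq (G : ℕ) : dens G * ((∏ l ∈ (Finset.Ico 3 (G + 1)).filter Nat.Prime, l : ℕ) : ℝ) =
    ((∏ l ∈ (Finset.Ico 3 (G + 1)).filter Nat.Prime, (l - 2) : ℕ) : ℝ) := by
  unfold dens fac
  rw [← Finset.prod_filter]
  push_cast
  rw [← Finset.prod_mul_distrib]
  apply Finset.prod_congr rfl
  intro l hl
  rw [Finset.mem_filter, Finset.mem_Ico] at hl
  have h3 : (3 : ℝ) ≤ l := by exact_mod_cast hl.1.1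
  rw [Nat.cast_sub (by omega)]
  push_cast
  field_simp

theorem sieve (p : ℕ) (K : ℝ) (hK : 0 ≤ K) :
    ∃ G Q : ℕ, ∀ A D : ℕ, K * ((D : ℝ) - Q) ≤ G * cnt p G A (A + D) := by
  classical
  obtain ⟨G, hG⟩ := exists_dens K hK
  set T := (Finset.Ico 3 (G + 1)).filter Nat.Prime with hTdef
  set W := ∏ l ∈ T, l with hW
  refine ⟨G, W, fun A D => ?_⟩
  have hT : ∀ l ∈ T, l.Prime ∧ 3 ≤ l := by
    intro l hl
    rw [hTdef, Finset.mem_filter, Finset.mem_Ico] at hl
    exact ⟨hl.2, hl.1.1⟩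
  have hW0 : 0 < W := Finset.prod_pos fun l hl => (hT l hl).1.pos
  have h1 := blocks p T hT A (D / W)
  have h2 : ((Finset.Ico A (A + D / W * W)).filter (fun y => Good p T y)).card ≤ cnt p G A (A + D) := by
    unfold cnt
    apply Finset.card_le_card
    intro y hy
    rw [Finset.mem_filter, Finset.mem_Ico] at hy ⊢
    have h3 := Nat.div_mul_le_self D W
    refine ⟨⟨hy.1.1, by omega⟩, ?_⟩
    intro l hl h3l hlG
    apply hy.2 l
    rw [hTdef, Finset.mem_filter, Finset.mem_Ico]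
    exact ⟨⟨h3l, by omega⟩, hl⟩
  have hP := dens_eq G
  rw [← hTdef, ← hW] at hP
  set P := ∏ l ∈ T, (l - 2) with hPdef
  have h3 : ((D / W : ℕ) : ℝ) * (P : ℝ) ≤ (cnt p G A (A + D) : ℝ) := by
    exact_mod_cast h1.trans h2
  have hWr : (0 : ℝ) < W := by exact_mod_cast hW0
  rcases le_or_gt (W : ℝ) (D : ℝ) with hD | hD
  · have h4 : (D : ℝ) - W ≤ ((D / W : ℕ) : ℝ) * W := by
      have h5 : D < (D / W + 1) * W := by
        have h6 := Nat.div_add_mod D W
        have h7 := Nat.mod_lt D hW0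
        nlinarith
      have h6 : (D : ℝ) < (((D / W : ℕ) : ℝ) + 1) * W := by exact_mod_cast h5
      linarith
    calc K * ((D : ℝ) - W) ≤ dens G * (G : ℝ) * ((D : ℝ) - W) :=
          mul_le_mul_of_nonneg_right hG (by linarith)
      _ ≤ dens G * (G : ℝ) * (((D / W : ℕ) : ℝ) * W) :=
          mul_le_mul_of_nonneg_left h4 (mul_nonneg (dens_pos _).le (by positivity))
      _ = (G : ℝ) * (((D / W : ℕ) : ℝ) * P) := by
          rw [← hP]
          ring
      _ ≤ (G : ℝ) * (cnt p G A (A + D) : ℝ) := mul_le_mul_of_nonneg_left h3 (by positivity)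
  · have h4 : K * ((D : ℝ) - W) ≤ 0 := mul_nonpos_of_nonneg_of_nonpos hK (by linarith)
    have h5 : (0 : ℝ) ≤ (G : ℝ) * (cnt p G A (A + D) : ℝ) := by positivity
    linarith

end Pool.Agent.GZ43
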